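import Pool.Agent.Q255.ZS.Stm
import Pool.Agent.Q255.RM.Main

/-!
# Project ZS, job EXP: the integral over a window as a sum over characters
-/

set_option autoImplicit false

open MeasureTheory Filter Topology Finset

namespace Pool.Agent.Q261.ZS

open Q289.PAM
open Pool.Agent.Q255.RM
open Pool.Agent.Q255.HC (Sys ex)
open Pool.Agent.Q255.ZS

lemma ex_chi (x : ℕ →₀ ℤ) (ω : ℕ → UnitAddCircle) : ex ec x ω = chi x ω := by
  classical
  unfold ex ec chi Finsupp.sum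
  have h : ∀ s : Finset ℕ, (((∑ a ∈ s, x a • ω a : UnitAddCircle)).toCircle : ℂ) =
      ∏ a ∈ s, (fourier (x a) (ω a) : ℂ) := by
    intro s
    induction s using Finset.induction_on with
    | empty => simp
    | insert a s ha ih =>
      rw [Finset.sum_insert ha, Finset.prod_insert ha, AddCircle.toCircle_add, Circle.coe_mul, ih,
        fourier_apply]
  exact (h _).symm

lemma ex_fac (ω : ℕ → UnitAddCircle) (a b : ℕ) :
    f ω a * star (f ω b) = ex ec (fac a - fac b) ω := by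
  rw [ex_chi, chi_sub, f_eq_chi, f_eq_chi]

lemma g_add (t α : ℝ) {n : ℕ} (hn : n ≠ 0) :
    g (t + α) n = (n : ℂ) ^ (-((α : ℂ) * Complex.I)) * g t n := by
  unfold g
  have hn' : (n : ℂ) ≠ 0 := by exact_mod_cast hn
  rw [← Complex.cpow_add _ _ hn']
  congr 1
  push_cast
  ring

lemma prod_expand {k : ℕ} (ω : ℕ → UnitAddCircle) (t : ℝ) (α : Fin k → ℝ) (N : ℕ) :
    ∏ j, ZN ω N (t + α j) = ∑ m ∈ Icc 1 (N ^ k), tau α N m * (f ω m * g t m) := by
  have h1 : ∏ j, ZN ω N (t + α j) =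
      ∑ v ∈ Fintype.piFinset (fun _ : Fin k => Icc 1 N), ∏ i, (f ω (v i) * g (t + α i) (v i)) := by
    unfold ZN
    rw [Finset.prod_univ_sum]
  rw [h1]
  have h2 : ∀ v ∈ Fintype.piFinset (fun _ : Fin k => Icc 1 N), ∏ i, (f ω (v i) * g (t + α i) (v i)) =
      (∏ i, (v i : ℂ) ^ (-((α i : ℂ) * Complex.I))) * (f ω (∏ i, v i) * g t (∏ i, v i)) := by
    intro v hv
    rw [Fintype.mem_piFinset] at hv
    have hv1 : ∀ i, 1 ≤ v i := fun i => (Finset.mem_Icc.1 (hv i)).1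
    rw [← (prod_mul_prod ω t Finset.univ v fun i _ => hv1 i).1, ← Finset.prod_mul_distrib]
    refine Finset.prod_congr rfl fun i _ => ?_
    rw [g_add t (α i) (by have := hv1 i; omega)]
    ring
  rw [Finset.sum_congr rfl h2, ← Finset.sum_fiberwise_of_maps_to (s := Fintype.piFinset fun _ : Fin k => Icc 1 N)
    (t := Icc 1 (N ^ k)) (g := fun v : Fin k → ℕ => ∏ i, v i) (fun v hv => prod_le_pow hv)]
  refine Finset.sum_congr rfl fun m _ => ?_
  unfold tau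
  rw [Finset.sum_mul]
  refine Finset.sum_congr rfl fun v hv => ?_
  rw [(Finset.mem_filter.1 hv).2]

lemma norm_tau {k : ℕ} (α : Fin k → ℝ) (N m : ℕ) : ‖tau α N m‖ ≤ dk k N m := by
  unfold tau dk
  refine (norm_sum_le _ _).trans ?_
  rw [Finset.card_eq_sum_ones, Nat.cast_sum]
  refine Finset.sum_le_sum fun v hv => ?_
  have hv' := (Finset.mem_filter.1 hv).1
  rw [Fintype.mem_piFinset] at hv'
  rw [norm_prod]
  refine le_of_eq ?_
  rw [Nat.cast_one]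
  refine Finset.prod_eq_one fun i _ => ?_
  have h1 := (Finset.mem_Icc.1 (hv' i)).1
  rw [Complex.norm_natCast_cpow_of_pos (by omega)]
  simp

/-- the coefficient of a pair -/
noncomputable def CC {k : ℕ} (α β : Fin k → ℝ) (N : ℕ) (u u' : ℝ) (x : ℕ × ℕ) : ℂ :=
  tau α N x.1 * star (tau β N x.2) * J x u u'

lemma FF_eq {k : ℕ} (ω : ℕ → UnitAddCircle) (α β : Fin k → ℝ) (N : ℕ) (t : ℝ) :
    FF ω α β N t = ∑ x ∈ OD (N ^ k), (tau α N x.1 * star (tau β N x.2)) *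
      (f ω x.1 * star (f ω x.2)) * E x t := by
  have h1 : (∏ j, ZN ω N (t + α j)) * (∏ j, star (ZN ω N (t + β j))) =
      ∑ x ∈ (Icc 1 (N ^ k)) ×ˢ (Icc 1 (N ^ k)), (tau α N x.1 * star (tau β N x.2)) *
        (f ω x.1 * star (f ω x.2)) * E x t := by
    have h0 : (∏ j, star (ZN ω N (t + β j))) = star (∏ j, ZN ω N (t + β j)) := by
      simp only [Complex.star_def]
      rw [map_prod]
    rw [h0, prod_expand, prod_expand, star_sum, Finset.sum_mul_sum, Finset.sum_product]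
    refine Finset.sum_congr rfl fun m _ => Finset.sum_congr rfl fun n _ => ?_
    unfold E
    simp only [star_mul']
    ring
  have h2 : DS α β N = ∑ x ∈ ((Icc 1 (N ^ k)) ×ˢ (Icc 1 (N ^ k))).filter (fun x => ¬ x.1 ≠ x.2),
      (tau α N x.1 * star (tau β N x.2)) * (f ω x.1 * star (f ω x.2)) * E x t := by
    unfold DS
    refine Finset.sum_bij' (fun m _ => (m, m)) (fun x _ => x.1) ?_ ?_ ?_ ?_ ?_
    · intro m hm
      rw [Finset.mem_filter, Finset.mem_product]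
      exact ⟨⟨hm, hm⟩, by simp⟩
    · intro x hx
      rw [Finset.mem_filter, Finset.mem_product] at hx
      exact hx.1.1
    · intro m _; rfl
    · intro x hx
      rw [Finset.mem_filter] at hx
      have := hx.2
      push Not at this
      exact Prod.ext rfl this
    · intro m hm
      rw [Finset.mem_Icc] at hm
      simp only
      rw [E_diag (by omega), f_mul_star]
      push_cast
      ring
  unfold FF
  rw [h1, h2]
  unfold OD
  rw [← Finset.sum_filter_add_sum_filter_not ((Icc 1 (N ^ k)) ×ˢ (Icc 1 (N ^ k)))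
    (fun x : ℕ × ℕ => x.1 ≠ x.2)]
  ring

lemma int_FF {k : ℕ} (ω : ℕ → UnitAddCircle) (α β : Fin k → ℝ) (N : ℕ) (u u' : ℝ) :
    ∫ t in u..u', FF ω α β N t = ∑ x ∈ OD (N ^ k), CC α β N u u' x * (f ω x.1 * star (f ω x.2)) := by
  simp_rw [FF_eq]
  rw [intervalIntegral.integral_finset_sum]
  · refine Finset.sum_congr rfl fun x _ => ?_
    rw [intervalIntegral.integral_const_mul]
    unfold CC J
    ring
  · intro x hx
    rw [mem_OD] at hx
    exact (continuous_const.mul (E_cont (by omega) (by omega))).intervalIntegrable _ _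

lemma norm_CC {k : ℕ} (α β : Fin k → ℝ) (N : ℕ) (u u' : ℝ) (huu : u ≤ u') {x : ℕ × ℕ}
    (h1 : x.1 ≠ 0) (h2 : x.2 ≠ 0) (hne : x.1 ≠ x.2) (K : ℝ)
    (hK1 : (dk k N x.1 : ℝ) ≤ K) (hK2 : (dk k N x.2 : ℝ) ≤ K) :
    ‖CC α β N u u' x‖ ^ 2 ≤ 2 * K ^ 4 * (u' - u) * wt x := by
  have p1 : (0 : ℝ) < x.1 := by exact_mod_cast Nat.pos_of_ne_zero h1
  have p2 : (0 : ℝ) < x.2 := by exact_mod_cast Nat.pos_of_ne_zero h2
  have hneR : (x.1 : ℝ) ≠ x.2 := by exact_mod_cast hne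
  have h6 : 0 < |(x.1 : ℝ) - x.2| := abs_pos.2 (sub_ne_zero.2 hneR)
  have h7 : 0 < max (x.1 : ℝ) x.2 := lt_max_of_lt_left p1
  have hK0 : 0 ≤ K := (Nat.cast_nonneg _).trans hK1
  have hH : 0 ≤ u' - u := by linarith
  obtain ⟨s, hs⟩ : ∃ s : ℝ, s = (Real.sqrt x.1)⁻¹ * (Real.sqrt x.2)⁻¹ := ⟨_, rfl⟩
  have hs0 : 0 ≤ s := by rw [hs]; positivity
  obtain ⟨q, hq⟩ : ∃ q : ℝ, q = 2 * (max (x.1 : ℝ) x.2) / |(x.1 : ℝ) - x.2| := ⟨_, rfl⟩
  have hq0 : 0 ≤ q := by rw [hq]; positivity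
  have hJ1 : ‖J x u u'‖ ≤ s * (u' - u) := by
    rw [hs]; exact norm_J_le_length h1 h2 huu
  have hJ2 : ‖J x u u'‖ ≤ s * q := by
    rw [hs, hq]; exact norm_J_le_inv h1 h2 hne u u'
  have hJ : ‖J x u u'‖ ^ 2 ≤ s ^ 2 * ((u' - u) * q) := by
    rw [sq]
    calc ‖J x u u'‖ * ‖J x u u'‖ ≤ (s * (u' - u)) * (s * q) :=
          mul_le_mul hJ1 hJ2 (norm_nonneg _) (mul_nonneg hs0 hH)
      _ = s ^ 2 * ((u' - u) * q) := by ring
  have h13 : s ^ 2 = 1 / ((x.1 : ℝ) * x.2) := by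
    rw [hs, mul_pow, inv_pow, inv_pow, Real.sq_sqrt p1.le, Real.sq_sqrt p2.le]
    field_simp
  have ht : ‖tau α N x.1‖ * ‖tau β N x.2‖ ≤ K * K :=
    mul_le_mul ((norm_tau α N x.1).trans hK1) ((norm_tau β N x.2).trans hK2) (norm_nonneg _) hK0
  unfold CC
  rw [norm_mul, norm_mul, norm_star, mul_pow]
  calc (‖tau α N x.1‖ * ‖tau β N x.2‖) ^ 2 * ‖J x u u'‖ ^ 2 ≤
      (K * K) ^ 2 * (s ^ 2 * ((u' - u) * q)) := by
        refine mul_le_mul (pow_le_pow_left₀ (by positivity) ht 2) hJ (by positivity) (by positivity)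
    _ = 2 * K ^ 4 * (u' - u) * wt x := by
        rw [h13, hq]
        unfold wt
        field_simp

/-- the character of a pair -/
noncomputable def ph (x : ℕ × ℕ) : ℕ →₀ ℤ := fac x.1 - fac x.2

lemma ph_cross {x y : ℕ × ℕ} (hx : x.1 ≠ 0 ∧ x.2 ≠ 0) (hy : y.1 ≠ 0 ∧ y.2 ≠ 0) (h : ph x = ph y) :
    x.1 * y.2 = y.1 * x.2 := by
  refine fac_inj (mul_ne_zero hx.1 hy.2) (mul_ne_zero hy.1 hx.2) ?_
  rw [fac_mul hx.1 hy.2, fac_mul hy.1 hx.2]
  unfold ph at h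
  rw [sub_eq_sub_iff_add_eq_add] at h
  rw [h]

lemma fiber_le (S0 : Finset (ℕ × ℕ)) (C : ℕ × ℕ → ℂ) (M : ℕ)
    (hS : ∀ x ∈ S0, x.1 ≠ 0 ∧ x.2 ≠ 0 ∧ x.1 ≤ M) (y : ℕ →₀ ℤ) :
    ‖∑ x ∈ S0.filter (fun x => ph x = y), C x‖ ^ 2 ≤
      L M * ∑ x ∈ S0.filter (fun x => ph x = y), ‖C x‖ ^ 2 * (Nat.gcd x.1 x.2 : ℝ) := by
  have hgp : ∀ x ∈ S0, (0 : ℝ) < Nat.gcd x.1 x.2 := fun x hx => by
    exact_mod_cast Nat.gcd_pos_of_pos_left _ (Nat.pos_of_ne_zero (hS x hx).1)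
  have h1 : ‖∑ x ∈ S0.filter (fun x => ph x = y), C x‖ ^ 2 ≤
      (∑ x ∈ S0.filter (fun x => ph x = y), ‖C x‖) ^ 2 :=
    pow_le_pow_left₀ (norm_nonneg _) (norm_sum_le _ _) 2
  have h2 := Finset.sum_sq_le_sum_mul_sum_of_sq_eq_mul (S0.filter (fun x => ph x = y))
    (r := fun x => ‖C x‖) (f := fun x => 1 / (Nat.gcd x.1 x.2 : ℝ))
    (g := fun x => ‖C x‖ ^ 2 * (Nat.gcd x.1 x.2 : ℝ)) (fun x _ => by positivity)
    (fun x _ => by positivity) (fun x hx => by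
      have := hgp x (Finset.mem_filter.1 hx).1
      field_simp)
  refine h1.trans (h2.trans ?_)
  refine mul_le_mul_of_nonneg_right ?_ (Finset.sum_nonneg fun x _ => by positivity)
  have hinj : Set.InjOn (fun x : ℕ × ℕ => Nat.gcd x.1 x.2) (S0.filter (fun x => ph x = y)) := by
    intro a ha b hb hab
    have ha' := Finset.mem_filter.1 (Finset.mem_coe.1 ha)
    have hb' := Finset.mem_filter.1 (Finset.mem_coe.1 hb)
    have ha0 := hS a ha'.1
    have hb0 := hS b hb'.1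
    have h8 := ph_cross ⟨ha0.1, ha0.2.1⟩ ⟨hb0.1, hb0.2.1⟩ (ha'.2.trans hb'.2.symm)
    have h10 := cross_inj ha0.1 ha0.2.1 hb0.1 hb0.2.1 h8 hab
    exact Prod.ext h10.1 h10.2
  rw [← Finset.sum_image (f := fun g : ℕ => (1 : ℝ) / g) hinj]
  unfold L
  refine Finset.sum_le_sum_of_subset_of_nonneg ?_ fun g _ _ => by positivity
  intro g hg
  obtain ⟨x, hx, rfl⟩ := Finset.mem_image.1 hg
  have hxS := hS x (Finset.mem_filter.1 hx).1
  rw [Finset.mem_Icc]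
  exact ⟨Nat.gcd_pos_of_pos_left _ (Nat.pos_of_ne_zero hxS.1),
    (Nat.gcd_le_left _ (Nat.pos_of_ne_zero hxS.1)).trans hxS.2.2⟩

theorem t_EXP : S_EXP := by
  unfold S_EXP
  intro k η hη
  obtain ⟨δ, hδdef⟩ : ∃ δ : ℝ, δ = η / (4 * k * (k + 1) + 1) := ⟨_, rfl⟩
  have hden : (0 : ℝ) < 4 * k * (k + 1) + 1 := by positivity
  have hδ : 0 < δ := by rw [hδdef]; positivity
  obtain ⟨C, hC1, hC⟩ := dk_bound k δ hδ
  refine ⟨4 * C ^ 4 * (1 + 1 / δ) ^ 4, by positivity, fun N α β u u' hN huu => ?_⟩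
  obtain ⟨M, hM⟩ : ∃ M, M = N ^ k := ⟨_, rfl⟩
  have hM1 : 1 ≤ M := by rw [hM]; exact Nat.one_le_pow _ _ (by omega)
  have hMR : (1 : ℝ) ≤ M := by exact_mod_cast hM1
  have hNR : (1 : ℝ) ≤ N := by exact_mod_cast hN
  have hH : 0 ≤ u' - u := by linarith
  refine ⟨(OD M).image ph, fun y => ∑ x ∈ (OD M).filter (fun x => ph x = y), CC α β N u u' x,
    ?_, ?_, ?_⟩
  · intro y hy
    obtain ⟨x, hx, rfl⟩ := Finset.mem_image.1 hy
    rw [mem_OD] at hx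
    rw [hM] at hx
    exact ⟨x.1, x.2, hx.1.1, hx.1.2, hx.2.1.1, hx.2.1.2, rfl⟩
  · have h1 : ∑ y ∈ (OD M).image ph,
        ‖∑ x ∈ (OD M).filter (fun x => ph x = y), CC α β N u u' x‖ ^ 2 ≤
        ∑ y ∈ (OD M).image ph, L M * ∑ x ∈ (OD M).filter (fun x => ph x = y),
          ‖CC α β N u u' x‖ ^ 2 * (Nat.gcd x.1 x.2 : ℝ) := by
      refine Finset.sum_le_sum fun y _ => fiber_le (OD M) (CC α β N u u') M (fun x hx => ?_) y
      rw [mem_OD] at hx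
      exact ⟨by omega, by omega, by omega⟩
    rw [← Finset.mul_sum, Finset.sum_fiberwise_of_maps_to (fun x hx => Finset.mem_image_of_mem _ hx)] at h1
    refine h1.trans ?_
    obtain ⟨K, hK⟩ : ∃ K : ℝ, K = C * (M : ℝ) ^ (δ * k) := ⟨_, rfl⟩
    have h2 : ∑ x ∈ OD M, ‖CC α β N u u' x‖ ^ 2 * (Nat.gcd x.1 x.2 : ℝ) ≤
        2 * K ^ 4 * (u' - u) * (2 * L M ^ 3) := by
      have h3 : ∀ x ∈ OD M, ‖CC α β N u u' x‖ ^ 2 * (Nat.gcd x.1 x.2 : ℝ) ≤
          2 * K ^ 4 * (u' - u) * (wt x * (Nat.gcd x.1 x.2 : ℝ)) := by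
        intro x hx
        have hx' := mem_OD.1 hx
        have h4 := norm_CC α β N u u' huu (x := x) (by omega) (by omega) hx'.2.2 K
          (by rw [hK]; exact hC M N x.1 (Finset.mem_Icc.2 hx'.1))
          (by rw [hK]; exact hC M N x.2 (Finset.mem_Icc.2 ⟨hx'.2.1.1, hx'.2.1.2⟩))
        rw [← mul_assoc]
        exact mul_le_mul_of_nonneg_right h4 (Nat.cast_nonneg _)
      refine (Finset.sum_le_sum h3).trans ?_
      rw [← Finset.mul_sum]
      exact mul_le_mul_of_nonneg_left (sum_wt_le M) (by positivity)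
    have hL := L_nonneg M
    have h5 : L M * ∑ x ∈ OD M, ‖CC α β N u u' x‖ ^ 2 * (Nat.gcd x.1 x.2 : ℝ) ≤
        4 * K ^ 4 * L M ^ 4 * (u' - u) := by
      calc L M * ∑ x ∈ OD M, ‖CC α β N u u' x‖ ^ 2 * (Nat.gcd x.1 x.2 : ℝ) ≤
          L M * (2 * K ^ 4 * (u' - u) * (2 * L M ^ 3)) := mul_le_mul_of_nonneg_left h2 hL
        _ = 4 * K ^ 4 * L M ^ 4 * (u' - u) := by ring
    refine h5.trans (mul_le_mul_of_nonneg_right ?_ hH)
    have h6 := L_le_rpow δ hδ M hM1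
    have h7 : L M ^ 4 ≤ ((1 + 1 / δ) * (M : ℝ) ^ δ) ^ 4 := pow_le_pow_left₀ hL h6 4
    rw [hK]
    have h8 : 4 * (C * (M : ℝ) ^ (δ * k)) ^ 4 * L M ^ 4 ≤
        4 * (C * (M : ℝ) ^ (δ * k)) ^ 4 * ((1 + 1 / δ) * (M : ℝ) ^ δ) ^ 4 :=
      mul_le_mul_of_nonneg_left h7 (by positivity)
    refine h8.trans ?_
    have h9 : 4 * (C * (M : ℝ) ^ (δ * k)) ^ 4 * ((1 + 1 / δ) * (M : ℝ) ^ δ) ^ 4 =
        4 * C ^ 4 * (1 + 1 / δ) ^ 4 * (M : ℝ) ^ (4 * δ * (k + 1)) := by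
      have e1 : (M : ℝ) ^ (4 * δ * (k + 1)) = ((M : ℝ) ^ (δ * k)) ^ 4 * ((M : ℝ) ^ δ) ^ 4 := by
        rw [← Real.rpow_natCast, ← Real.rpow_natCast ((M : ℝ) ^ δ), ← Real.rpow_mul (by positivity),
          ← Real.rpow_mul (by positivity), ← Real.rpow_add (by positivity)]
        congr 1
        push_cast
        ring
      rw [e1]
      ring
    rw [h9]
    refine mul_le_mul_of_nonneg_left ?_ (by positivity)
    have h10 : (M : ℝ) = (N : ℝ) ^ (k : ℝ) := by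
      rw [hM, Real.rpow_natCast]
      push_cast
      rfl
    rw [h10, ← Real.rpow_mul (by positivity)]
    refine Real.rpow_le_rpow_of_exponent_le hNR ?_
    rw [hδdef]
    have hk : (0 : ℝ) ≤ k := Nat.cast_nonneg _
    have e2 : (k : ℝ) * (4 * (η / (4 * k * (k + 1) + 1)) * (k + 1)) =
        η * ((4 * k * (k + 1)) / (4 * k * (k + 1) + 1)) := by
      ring
    rw [e2]
    have e3 : (4 * (k : ℝ) * (k + 1)) / (4 * k * (k + 1) + 1) ≤ 1 := by
      rw [div_le_one hden]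
      linarith
    nlinarith
  · intro ω
    rw [int_FF, ← hM]
    rw [← Finset.sum_fiberwise_of_maps_to (s := OD M) (t := (OD M).image ph) (g := ph)
      (fun x hx => Finset.mem_image_of_mem _ hx)]
    refine Finset.sum_congr rfl fun y _ => ?_
    rw [Finset.sum_mul]
    refine Finset.sum_congr rfl fun x hx => ?_
    rw [ex_fac]
    have : fac x.1 - fac x.2 = y := (Finset.mem_filter.1 hx).2
    rw [this]

end Pool.Agent.Q261.ZS
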